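import Mathlib
import Pool.Agent.Results.MP_b5e119_nt.LongDescent

/-! Typical defect of the gcd recursion for Goldbach pairs: helper file on the recursion. -/

set_option autoImplicit false

namespace Pool.Agent.R105.GD.Gol

/-- the recursion for Goldbach pairs -/
noncomputable def aa (N : ℕ) : ℕ → ℤ
  | 0 => 0
  | 1 => (N : ℤ) - 2
  | (n + 2) => aa N (n + 1) - ((Int.gcd (aa N (n + 1))
      ((N : ℤ) - (-1) ^ (n + 2) * ((N : ℤ) - ((n + 2 : ℕ) : ℤ))) : ℕ) : ℤ)

lemma aa_one (N : ℕ) : aa N 1 = (N : ℤ) - 2 := by rw [aa]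

lemma aa_rec (N : ℕ) (n : ℕ) (hn : 2 ≤ n) :
    aa N n = aa N (n - 1) - ((Int.gcd (aa N (n - 1)) ((N : ℤ) - (-1) ^ n * ((N : ℤ) - n)) : ℕ) : ℤ) := by
  obtain ⟨k, rfl⟩ : ∃ k, n = k + 2 := ⟨n - 2, by omega⟩
  rw [aa]
  rfl

/-- as long as no zero is met, each step loses at least one -/
lemma aa_desc (N : ℕ) (m : ℕ) (hm : 1 ≤ m) (n : ℕ) (hn : m ≤ n) (h : ∀ k, 1 ≤ k → k ≤ n → aa N k ≠ 0)
    (hN : 3 ≤ N) (h0 : 0 < aa N m) :
    0 < aa N n ∧ aa N n + n ≤ aa N m + m := by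
  induction n, hn using Nat.le_induction with
  | base => exact ⟨h0, le_rfl⟩
  | succ n hn ih =>
    have h1 := ih fun k hk1 hk2 => h k hk1 (by omega)
    have h2 := aa_rec N (n + 1) (by omega)
    rw [Nat.add_sub_cancel] at h2
    set g := Int.gcd (aa N n) ((N : ℤ) - (-1) ^ (n + 1) * ((N : ℤ) - ((n + 1 : ℕ) : ℤ))) with hg
    have h3 : ((g : ℕ) : ℤ) ≤ aa N n := Int.le_of_dvd h1.1 (Int.gcd_dvd_left ..)
    have h4 : 1 ≤ g := by
      rw [Nat.one_le_iff_ne_zero, hg]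
      intro h0
      rw [Int.gcd_eq_zero_iff] at h0
      omega
    have h5 := h (n + 1) (by omega) le_rfl
    have h6 : 0 < aa N (n + 1) := by omega
    refine ⟨h6, ?_⟩
    push_cast
    omega

/-- the zero of the recursion -/
noncomputable def gg (N : ℕ) : ℕ := sInf {n : ℕ | 2 ≤ n ∧ aa N n = 0}

lemma gg_isLeast (N : ℕ) (hN : 3 ≤ N) : IsLeast {n : ℕ | 2 ≤ n ∧ aa N n = 0} (gg N) := by
  have hne : {n : ℕ | 2 ≤ n ∧ aa N n = 0}.Nonempty := by
    by_contra hcon
    rw [Set.not_nonempty_iff_eq_empty] at hcon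
    have h : ∀ k, 1 ≤ k → k ≤ N → aa N k ≠ 0 := by
      intro k hk _ h0
      rcases Nat.lt_or_ge k 2 with h2 | h2
      · have : k = 1 := by omega
        subst this
        rw [aa_one] at h0
        omega
      · have : k ∈ {n : ℕ | 2 ≤ n ∧ aa N n = 0} := ⟨h2, h0⟩
        rw [hcon] at this
        exact this
    have := aa_desc N 1 le_rfl N (by omega) h hN (by rw [aa_one]; omega)
    rw [aa_one] at this
    push_cast at this
    omega
  exact ⟨Nat.sInf_mem hne, fun m hm => Nat.sInf_le hm⟩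

lemma gg_ne (N : ℕ) (hN : 3 ≤ N) (k : ℕ) (hk : 1 ≤ k) (hkg : k < gg N) : aa N k ≠ 0 := by
  intro h0
  rcases Nat.lt_or_ge k 2 with h2 | h2
  · have : k = 1 := by omega
    subst this
    rw [aa_one] at h0
    omega
  · have := (gg_isLeast N hN).2 (show k ∈ {n : ℕ | 2 ≤ n ∧ aa N n = 0} from ⟨h2, h0⟩)
    omega

lemma gg_primes (N : ℕ) (hN : 2208 ≤ N) (h : 7 * N ≤ 9 * gg N) :
    Nat.Prime (gg N + 1) ∧ Nat.Prime (2 * N - gg N - 1) :=
  (Pool.Agent.Results.MP_b5e119_nt.LongDescent.result N (by omega) (aa N) (aa_one N)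
    (fun n hn => aa_rec N n hn) (gg N) (gg_isLeast N (by omega))).2 hN h

/-- if `aa N m` is nonnegative, with `m` below the zero, the zero is at most `aa N m + m` -/
lemma gg_le_of (N : ℕ) (hN : 3 ≤ N) (m : ℕ) (hm : 1 ≤ m) (h0 : 0 < aa N m) :
    (gg N : ℤ) ≤ aa N m + m := by
  by_contra hcon
  push Not at hcon
  have hkey : ∀ n, m ≤ n → n < gg N → 0 < aa N n ∧ aa N n + n ≤ aa N m + m := fun n hn hng =>
    aa_desc N m hm n hn (fun k hk hkn => gg_ne N hN k hk (by omega)) hN h0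
  have h1 := hkey (aa N m + m).toNat (by omega) (by omega)
  omega

lemma gg_le (N : ℕ) (hN : 3 ≤ N) : gg N + 1 ≤ N := by
  have := gg_le_of N hN 1 le_rfl (by rw [aa_one]; omega)
  rw [aa_one] at this
  push_cast at this
  omega

/-- before the least prime factor of `N` all the steps are trivial -/
lemma aa_trivial (N : ℕ) (hN : 3 ≤ N) (n : ℕ) (hn : 1 ≤ n) (hnq : n < N.minFac) :
    aa N n = (N : ℤ) - n - 1 := by
  induction n, hn using Nat.le_induction with
  | base => rw [aa_one]; push_cast; ring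
  | succ n hn ih =>
    have h1 := ih (by omega)
    have h2 := aa_rec N (n + 1) (by omega)
    rw [Nat.add_sub_cancel, h1] at h2
    have hcop : Nat.Coprime (n + 1) N := by
      apply Nat.Coprime.symm
      apply Nat.coprime_of_lt_minFac _ hnq
      omega
    have hZ : IsCoprime ((n : ℤ) + 1) (N : ℤ) := by
      have := Nat.isCoprime_iff_coprime.2 hcop
      push_cast at this
      exact this
    have hg : Int.gcd ((N : ℤ) - n - 1) ((N : ℤ) - (-1) ^ (n + 1) * ((N : ℤ) - ((n + 1 : ℕ) : ℤ))) = 1 := by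
      rw [← Int.isCoprime_iff_gcd_eq_one]
      rcases Nat.even_or_odd (n + 1) with he | ho
      · rw [he.neg_one_pow]
        push_cast
        obtain ⟨u, v, huv⟩ := hZ
        exact ⟨v, u + v, by linear_combination huv⟩
      · rw [ho.neg_one_pow]
        push_cast
        obtain ⟨u, v, huv⟩ := hZ
        -- (N - n - 1) and (2N - n - 1): N = difference; n + 1 = N - (N - n - 1)
        exact ⟨-(2 * u) - v, u + v, by linear_combination huv⟩
    rw [hg] at h2
    rw [h2]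
    push_cast
    ring

/-- for composite `N` the defect is at least the least prime factor -/
lemma defect_comp (N : ℕ) (hN : 3 ≤ N) (hc : ¬ N.Prime) : gg N + N.minFac ≤ N := by
  set q := N.minFac with hq
  have hqp : q.Prime := Nat.minFac_prime (by omega)
  have hq2 := hqp.two_le
  have hqq : q ^ 2 ≤ N := Nat.minFac_sq_le_self (by omega) hc
  have h1 := aa_trivial N hN (q - 1) (by omega) (by omega)
  have h2 := aa_rec N q hq2
  rw [h1] at h2
  obtain ⟨m, hm⟩ : q ∣ N := Nat.minFac_dvd N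
  have hmZ : (N : ℤ) = q * m := by exact_mod_cast hm
  have e1 : (N : ℤ) - ((q - 1 : ℕ) : ℤ) - 1 = N - q := by omega
  rw [e1] at h2
  have hd : (q : ℤ) ∣ ((Int.gcd ((N : ℤ) - q) ((N : ℤ) - (-1) ^ q * ((N : ℤ) - q)) : ℕ) : ℤ) := by
    apply Int.dvd_coe_gcd
    · exact dvd_sub (Dvd.intro _ hmZ.symm) dvd_rfl
    · exact dvd_sub (Dvd.intro _ hmZ.symm) (Dvd.dvd.mul_left (dvd_sub (Dvd.intro _ hmZ.symm) dvd_rfl) _)
  have hpos : 0 < (N : ℤ) - q := by
    have : q * q ≤ N := by rw [← sq]; exact hqq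
    have : 2 * q ≤ q * q := Nat.mul_le_mul_right _ hq2
    omega
  have hle : ((Int.gcd ((N : ℤ) - q) ((N : ℤ) - (-1) ^ q * ((N : ℤ) - q)) : ℕ) : ℤ) ≤ (N : ℤ) - q :=
    Int.le_of_dvd hpos (Int.gcd_dvd_left ..)
  have hgpos : 0 < ((Int.gcd ((N : ℤ) - q) ((N : ℤ) - (-1) ^ q * ((N : ℤ) - q)) : ℕ) : ℤ) := by
    have : 0 < Int.gcd ((N : ℤ) - q) ((N : ℤ) - (-1) ^ q * ((N : ℤ) - q)) :=
      Int.gcd_pos_of_ne_zero_left _ hpos.ne'
    exact_mod_cast this
  have hge := Int.le_of_dvd hgpos hd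
  rcases eq_or_lt_of_le (show 0 ≤ aa N q by omega) with h0 | h0
  · -- zero already at q
    have := (gg_isLeast N hN).2 (show q ∈ {n : ℕ | 2 ≤ n ∧ aa N n = 0} from ⟨hq2, h0.symm⟩)
    have h3 : q * q ≤ N := by rw [← sq]; exact hqq
    have h4 : 2 * q ≤ q * q := Nat.mul_le_mul_right _ hq2
    omega
  · have := gg_le_of N hN q (by omega) h0
    omega

end Pool.Agent.R105.GD.Gol
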