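import Mathlib
import Pool.Agent.Results.MP_3f8e47_nt.LongLife
import Pool.Agent.Y949.DK.SV

/-! Typical defect of the gcd recursion for prime triples: helper file. -/

set_option autoImplicit false

namespace Pool.Agent.R105.GD

open Finset Filter Topology Pool.Agent.Results.MP_3f8e47_nt.LongLife

/-- the recursion for prime triples -/
noncomputable def aa (N : ℕ) : ℕ → ℤ
  | 0 => 0
  | 1 => (N : ℤ) - 6
  | (n + 2) => aa N (n + 1) - ((Int.gcd (aa N (n + 1)) ((n + 2 + b (n + 2) : ℕ) : ℤ) : ℕ) : ℤ)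

lemma aa_one (N : ℕ) : aa N 1 = (N : ℤ) - 6 := by rw [aa]

lemma aa_rec (N : ℕ) (n : ℕ) (hn : 2 ≤ n) :
    aa N n = aa N (n - 1) - ((Int.gcd (aa N (n - 1)) ((n + b n : ℕ) : ℤ) : ℕ) : ℤ) := by
  obtain ⟨k, rfl⟩ : ∃ k, n = k + 2 := ⟨n - 2, by omega⟩
  rw [aa]
  rfl

lemma aa_pos (N : ℕ) (n : ℕ) (hn : 1 ≤ n) (h : ∀ k, 1 ≤ k → k ≤ n → aa N k ≠ 0) (hN : 6 ≤ N) :
    0 < aa N n ∧ aa N n + n ≤ (N : ℤ) - 5 := by
  induction n, hn using Nat.le_induction with
  | base =>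
    have h1 := h 1 le_rfl le_rfl
    rw [aa_one] at h1 ⊢
    push_cast
    constructor <;> omega
  | succ n hn ih =>
    have h1 := ih fun k hk1 hk2 => h k hk1 (by omega)
    have h2 := aa_rec N (n + 1) (by omega)
    rw [Nat.add_sub_cancel] at h2
    set g := Int.gcd (aa N n) ((n + 1 + b (n + 1) : ℕ) : ℤ) with hg
    have h3 : ((g : ℕ) : ℤ) ≤ aa N n := Int.le_of_dvd h1.1 (Int.gcd_dvd_left ..)
    have h4 : 1 ≤ g := by
      rw [Nat.one_le_iff_ne_zero, hg]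
      intro h0
      rw [Int.gcd_eq_zero_iff] at h0
      omega
    have h5 := h (n + 1) (by omega) le_rfl
    have h6 : 0 < aa N (n + 1) := by omega
    refine ⟨h6, ?_⟩
    push_cast
    omega

/-- the zero of the recursion -/
noncomputable def ff (N : ℕ) : ℕ := sInf {n : ℕ | 1 ≤ n ∧ aa N n = 0}

lemma ff_isLeast (N : ℕ) (hN : 6 ≤ N) : IsLeast {n : ℕ | 1 ≤ n ∧ aa N n = 0} (ff N) := by
  have hne : {n : ℕ | 1 ≤ n ∧ aa N n = 0}.Nonempty := by
    by_contra hcon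
    rw [Set.not_nonempty_iff_eq_empty] at hcon
    have h : ∀ k, 1 ≤ k → k ≤ N → aa N k ≠ 0 := by
      intro k hk _ h0
      have : k ∈ {n : ℕ | 1 ≤ n ∧ aa N n = 0} := ⟨hk, h0⟩
      rw [hcon] at this
      exact this
    have := aa_pos N N (by omega) h hN
    omega
  exact ⟨Nat.sInf_mem hne, fun m hm => Nat.sInf_le hm⟩

lemma ff_primes (N : ℕ) (hN : 2100 ≤ N) (h : 4 * N ≤ 5 * ff N) :
    Nat.Prime (ff N + 1) ∧ Nat.Prime (ff N + 3) ∧ Nat.Prime (ff N + 7) :=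
  (Pool.Agent.Results.MP_3f8e47_nt.LongLife.result N (by omega) (aa N) (aa_one N)
    (fun n hn => aa_rec N n hn) (ff N) (ff_isLeast N (by omega))).2 hN h

lemma ff_le (N : ℕ) (hN : 6 ≤ N) : ff N ≤ N := by
  by_contra hcon
  push Not at hcon
  have hL := ff_isLeast N hN
  have h : ∀ k, 1 ≤ k → k ≤ N → aa N k ≠ 0 := by
    intro k hk hkN h0
    have := hL.2 (show k ∈ {n : ℕ | 1 ≤ n ∧ aa N n = 0} from ⟨hk, h0⟩)
    omega
  have := aa_pos N N (by omega) h hN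
  omega

open Classical in
/-- number of prime triples -/
lemma triples_le : ∃ C : ℝ, 1 ≤ C ∧ ∀ᶠ X : ℕ in atTop,
    (((Icc 1 X).filter (fun n : ℕ => Nat.Prime (n + 1) ∧ Nat.Prime (n + 3) ∧ Nat.Prime (n + 7))).card : ℝ)
      ≤ C * (X / Real.log X ^ 3) := by
  obtain ⟨C, hC, h⟩ := Pool.Agent.Y949.DK.t_SV 3
  set F : Finset (ℤ × ℤ) := {(1, 1), (1, 3), (1, 7)} with hF
  refine ⟨C * Real.exp (C * (∑ f ∈ F, Pool.Agent.Y851.DK.sg f.1.natAbs + ∑ f ∈ F, ∑ g ∈ F,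
    Pool.Agent.Y851.DK.sg (f.1 * g.2 - g.1 * f.2).natAbs)), ?_, ?_⟩
  · have h0 : 0 ≤ C * (∑ f ∈ F, Pool.Agent.Y851.DK.sg f.1.natAbs + ∑ f ∈ F, ∑ g ∈ F,
      Pool.Agent.Y851.DK.sg (f.1 * g.2 - g.1 * f.2).natAbs) := by
      have hs : ∀ m, 0 ≤ Pool.Agent.Y851.DK.sg m := fun m => sum_nonneg fun _ _ => by positivity
      apply mul_nonneg (by linarith)
      apply add_nonneg
      · exact sum_nonneg fun _ _ => hs _
      · exact sum_nonneg fun _ _ => sum_nonneg fun _ _ => hs _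
    have h1 := Real.one_le_exp h0
    nlinarith
  · have h2 := (tendsto_natCast_atTop_atTop (R := ℝ)).eventually h
    filter_upwards [h2] with X hX
    have h3 := hX F (by rw [hF]; rfl) (by rw [hF]; decide) (by rw [hF]; decide)
    rw [Nat.floor_natCast] at h3
    refine le_trans ?_ h3
    rw [Nat.cast_le]
    apply card_le_card
    intro n hn
    rw [mem_filter] at hn ⊢
    refine ⟨hn.1, fun f hf => ?_⟩
    rw [hF] at hf
    simp only [mem_insert, mem_singleton] at hf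
    rcases hf with rfl | rfl | rfl
    · have : ((1 : ℤ) * (n : ℤ) + 1).toNat = n + 1 := by omega
      simp only [this]
      exact hn.2.1
    · have : ((1 : ℤ) * (n : ℤ) + 3).toNat = n + 3 := by omega
      simp only [this]
      exact hn.2.2.1
    · have : ((1 : ℤ) * (n : ℤ) + 7).toNat = n + 7 := by omega
      simp only [this]
      exact hn.2.2.2

end Pool.Agent.R105.GD
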