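import Mathlib
import Pool.Agent.R105.GD.Tri

/-! Large defects of the gcd recursion for prime triples: helper file on the recursion. -/

set_option autoImplicit false

namespace Pool.Agent.R105.GD

open Finset Pool.Agent.Results.MP_3f8e47_nt.LongLife

/-- as long as no zero is met, each step loses at least one -/
lemma aa_desc (N : ℕ) (m : ℕ) (hm : 1 ≤ m) (n : ℕ) (hn : m ≤ n)
    (h : ∀ k, 1 ≤ k → k ≤ n → aa N k ≠ 0) (h0 : 0 < aa N m) :
    0 < aa N n ∧ aa N n + n ≤ aa N m + m := by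
  induction n, hn using Nat.le_induction with
  | base => exact ⟨h0, le_rfl⟩
  | succ n hn ih =>
    have h1 := ih fun k hk1 hk2 => h k hk1 (by omega)
    have h2 := aa_rec N (n + 1) (by omega)
    rw [Nat.add_sub_cancel] at h2
    set g := Int.gcd (aa N n) ((n + 1 + b (n + 1) : ℕ) : ℤ) with hg
    have h3 : ((g : ℕ) : ℤ) ≤ aa N n := Int.le_of_dvd h1.1 (Int.gcd_dvd_left ..)
    have h4 : 1 ≤ g := by
      rw [Nat.one_le_iff_ne_zero, hg]
      intro h0
      rw [Int.gcd_eq_zero_iff] at h0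
      omega
    have h5 := h (n + 1) (by omega) le_rfl
    have h6 : 0 < aa N (n + 1) := by omega
    refine ⟨h6, ?_⟩
    push_cast
    omega

lemma ff_ne (N : ℕ) (hN : 6 ≤ N) (k : ℕ) (hk : 1 ≤ k) (hkg : k < ff N) : aa N k ≠ 0 := by
  intro h0
  have := (ff_isLeast N hN).2 (show k ∈ {n : ℕ | 1 ≤ n ∧ aa N n = 0} from ⟨hk, h0⟩)
  omega

lemma ff_le_of (N : ℕ) (hN : 6 ≤ N) (m : ℕ) (hm : 1 ≤ m) (h0 : 0 < aa N m) :
    (ff N : ℤ) ≤ aa N m + m := by
  by_contra hcon
  push Not at hcon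
  have hkey : ∀ n, m ≤ n → n < ff N → 0 < aa N n ∧ aa N n + n ≤ aa N m + m := fun n hn hng =>
    aa_desc N m hm n hn (fun k hk hkn => ff_ne N hN k hk (by omega)) h0
  have h1 := hkey (aa N m + m).toNat (by omega) (by omega)
  omega

/-- before the first nontrivial gcd -/
lemma aa_triv (N : ℕ) (n : ℕ) (hn : 1 ≤ n)
    (h : ∀ k, 2 ≤ k → k ≤ n → Int.gcd ((N : ℤ) - 4 - k) ((k + b k : ℕ) : ℤ) = 1) :
    aa N n = (N : ℤ) - 5 - n := by
  induction n, hn using Nat.le_induction with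
  | base => rw [aa_one]; push_cast; ring
  | succ n hn ih =>
    have h1 := ih fun k hk1 hk2 => h k hk1 (by omega)
    have h2 := aa_rec N (n + 1) (by omega)
    rw [Nat.add_sub_cancel, h1] at h2
    have h3 := h (n + 1) (by omega) le_rfl
    have e : (N : ℤ) - 4 - ((n + 1 : ℕ) : ℤ) = (N : ℤ) - 5 - n := by push_cast; ring
    rw [e] at h3
    rw [h3] at h2
    rw [h2]
    push_cast
    ring

lemma b_cases (n : ℕ) : b n = 0 ∨ b n = 2 ∨ b n = 6 := by
  unfold b
  split_ifs <;> simp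

/-- if `N - 4`, `N - 2`, `N + 2` are free of primes `≤ z`, and `N - 4` has a divisor `D > z` which
is not too large, the recursion loses at least `z` -/
lemma ff_jump (N z D : ℕ) (hD : z < D) (hdvd : D ∣ N - 4) (hz : 1 ≤ z)
    (hbig : 3 * D + z + 6 ≤ N)
    (hs : ∀ p, p.Prime → p ≤ z → ¬ p ∣ N - 4 ∧ ¬ p ∣ N - 2 ∧ ¬ p ∣ N + 2) : ff N + z ≤ N := by
  classical
  have hex : ∃ n : ℕ, 2 ≤ n ∧ Int.gcd ((N : ℤ) - 4 - n) ((n + b n : ℕ) : ℤ) ≠ 1 := by
    refine ⟨3 * D, by omega, ?_⟩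
    intro h1
    have hb : b (3 * D) = 0 := by
      unfold b
      have : 3 * D % 3 = 0 := by omega
      rw [this]
      simp
    rw [hb] at h1
    have hd1 : (D : ℤ) ∣ (N : ℤ) - 4 - ((3 * D : ℕ) : ℤ) := by
      obtain ⟨m, hm⟩ := hdvd
      refine ⟨(m : ℤ) - 3, ?_⟩
      have : ((N - 4 : ℕ) : ℤ) = (N : ℤ) - 4 := by omega
      have h2 : ((N - 4 : ℕ) : ℤ) = ((D * m : ℕ) : ℤ) := by rw [hm]
      rw [← this, h2]
      push_cast
      ring
    have hd2 : (D : ℤ) ∣ ((3 * D + 0 : ℕ) : ℤ) := ⟨3, by push_cast; ring⟩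
    have hd := Int.dvd_coe_gcd hd1 hd2
    rw [h1] at hd
    have := Int.le_of_dvd (by norm_num) hd
    push_cast at this
    omega
  set m := Nat.find hex with hm
  obtain ⟨hm2, hmg⟩ := Nat.find_spec hex
  have hm3 : m ≤ 3 * D := by
    apply Nat.find_min'
    refine ⟨by omega, ?_⟩
    intro h1
    have hb : b (3 * D) = 0 := by
      unfold b
      have : 3 * D % 3 = 0 := by omega
      rw [this]
      simp
    rw [hb] at h1
    have hd1 : (D : ℤ) ∣ (N : ℤ) - 4 - ((3 * D : ℕ) : ℤ) := by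
      obtain ⟨m, hm⟩ := hdvd
      refine ⟨(m : ℤ) - 3, ?_⟩
      have : ((N - 4 : ℕ) : ℤ) = (N : ℤ) - 4 := by omega
      have h2 : ((N - 4 : ℕ) : ℤ) = ((D * m : ℕ) : ℤ) := by rw [hm]
      rw [← this, h2]
      push_cast
      ring
    have hd2 : (D : ℤ) ∣ ((3 * D + 0 : ℕ) : ℤ) := ⟨3, by push_cast; ring⟩
    have hd := Int.dvd_coe_gcd hd1 hd2
    rw [h1] at hd
    have := Int.le_of_dvd (by norm_num) hd
    push_cast at this
    omega
  have htriv : ∀ k, 2 ≤ k → k ≤ m - 1 → Int.gcd ((N : ℤ) - 4 - k) ((k + b k : ℕ) : ℤ) = 1 := by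
    intro k hk1 hk2
    have := Nat.find_min hex (m := k) (by omega)
    by_contra hne
    exact this ⟨hk1, hne⟩
  have h1 := aa_triv N (m - 1) (by omega) htriv
  have h2 := aa_rec N m hm2
  have e : aa N (m - 1) = (N : ℤ) - 4 - m := by
    rw [h1]
    omega
  rw [e] at h2
  set d := Int.gcd ((N : ℤ) - 4 - m) ((m + b m : ℕ) : ℤ) with hd
  have hd0 : d ≠ 0 := by
    intro h0
    rw [hd, Int.gcd_eq_zero_iff] at h0
    omega
  have hdz : z < d := by
    have hdm : d ≠ 1 := hmg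
    have hp := Nat.minFac_prime hdm
    have hpd : d.minFac ∣ d := Nat.minFac_dvd d
    have hpd1 : (d.minFac : ℤ) ∣ (N : ℤ) - 4 - m :=
      (Int.natCast_dvd_natCast.2 hpd).trans (Int.gcd_dvd_left ..)
    have hpd2 : (d.minFac : ℤ) ∣ ((m + b m : ℕ) : ℤ) :=
      (Int.natCast_dvd_natCast.2 hpd).trans (Int.gcd_dvd_right ..)
    have hsum := dvd_add hpd1 hpd2
    have hle := Nat.minFac_le (n := d) (by omega)
    by_contra hcon
    push Not at hcon
    have hs' := hs d.minFac hp (hle.trans hcon)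
    rcases b_cases m with hb | hb | hb
    · rw [hb] at hsum
      apply hs'.1
      rw [← Int.natCast_dvd_natCast]
      have : ((N - 4 : ℕ) : ℤ) = (N : ℤ) - 4 - m + ((m + 0 : ℕ) : ℤ) := by push_cast; omega
      rw [this]; exact hsum
    · rw [hb] at hsum
      apply hs'.2.1
      rw [← Int.natCast_dvd_natCast]
      have : ((N - 2 : ℕ) : ℤ) = (N : ℤ) - 4 - m + ((m + 2 : ℕ) : ℤ) := by push_cast; omega
      rw [this]; exact hsum
    · rw [hb] at hsum
      apply hs'.2.2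
      rw [← Int.natCast_dvd_natCast]
      have : ((N + 2 : ℕ) : ℤ) = (N : ℤ) - 4 - m + ((m + 6 : ℕ) : ℤ) := by push_cast; omega
      rw [this]; exact hsum
  have hpos : 0 < (N : ℤ) - 4 - m := by omega
  have hdle : (d : ℤ) ≤ (N : ℤ) - 4 - m := Int.le_of_dvd hpos (Int.gcd_dvd_left ..)
  rcases eq_or_lt_of_le (show 0 ≤ aa N m by omega) with h0 | h0
  · have := (ff_isLeast N (by omega)).2 (show m ∈ {n : ℕ | 1 ≤ n ∧ aa N n = 0} from ⟨by omega, h0.symm⟩)
    omega
  · have := ff_le_of N (by omega) m (by omega) h0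
    omega

end Pool.Agent.R105.GD
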