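import Mathlib
import Pool.Agent.R105.GD.Tri2
import Pool.Agent.H505R3.SieveG

/-! Large defects of the gcd recursion for prime triples: the sieve. -/

set_option autoImplicit false

namespace Pool.Agent.R105.GD

open Finset

/-- the excluded classes -/
def Om (q r0 p : ℕ) : Finset ℕ :=
  (range p).filter (fun m => p ∣ q * (r0 + m) ∨ p ∣ q * (r0 + m) + 2 ∨ p ∣ q * (r0 + m) + 6)

lemma one_class (q r0 p c : ℕ) (hp : p.Prime) (hpq : ¬ p ∣ q) :
    ((range p).filter (fun m => p ∣ q * (r0 + m) + c)).card ≤ 1 := by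
  rw [card_le_one]
  intro a ha b hb
  rw [mem_filter, mem_range] at ha hb
  have h1 : (p : ℤ) ∣ ((q * (r0 + a) + c : ℕ) : ℤ) := Int.natCast_dvd_natCast.2 ha.2
  have h2 : (p : ℤ) ∣ ((q * (r0 + b) + c : ℕ) : ℤ) := Int.natCast_dvd_natCast.2 hb.2
  have h3 := dvd_sub h1 h2
  have e : ((q * (r0 + a) + c : ℕ) : ℤ) - ((q * (r0 + b) + c : ℕ) : ℤ) = (q : ℤ) * ((a : ℤ) - b) := by
    push_cast; ring
  rw [e] at h3
  have hpZ : Prime (p : ℤ) := Nat.prime_iff_prime_int.1 hp
  rcases hpZ.dvd_or_dvd h3 with h4 | h4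
  · exact absurd (Int.natCast_dvd_natCast.1 h4) hpq
  · have h5 := Int.eq_zero_of_abs_lt_dvd h4 (by rw [abs_lt]; constructor <;> omega)
    omega

lemma Om_card (q r0 p : ℕ) (hp : p.Prime) (hpq : ¬ p ∣ q) :
    5 * (Om q r0 p).card ≤ 4 * p ∧ (Om q r0 p).card ≤ 4 := by
  have h0 := one_class q r0 p 0 hp hpq
  have h2 := one_class q r0 p 2 hp hpq
  have h6 := one_class q r0 p 6 hp hpq
  simp only [add_zero] at h0
  have hsub : Om q r0 p ⊆ (range p).filter (fun m => p ∣ q * (r0 + m)) ∪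
      ((range p).filter (fun m => p ∣ q * (r0 + m) + 2) ∪
        (range p).filter (fun m => p ∣ q * (r0 + m) + 6)) := by
    intro m hm
    unfold Om at hm
    simp only [mem_filter, mem_union] at hm ⊢
    tauto
  have h3 : (Om q r0 p).card ≤ 3 := by
    have := (card_le_card hsub).trans (card_union_le _ _)
    have := card_union_le ((range p).filter (fun m => p ∣ q * (r0 + m) + 2))
        ((range p).filter (fun m => p ∣ q * (r0 + m) + 6))
    omega
  refine ⟨?_, by omega⟩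
  rcases Nat.lt_or_ge p 5 with h5 | h5
  · have hp2 := hp.two_le
    have hp4 : p ≠ 4 := by rintro rfl; exact absurd hp (by norm_num)
    have hp23 : p = 2 ∨ p = 3 := by omega
    rcases hp23 with rfl | rfl
    · have : Om q r0 2 ⊆ (range 2).filter (fun m => 2 ∣ q * (r0 + m)) := by
        intro m hm
        unfold Om at hm
        simp only [mem_filter] at hm ⊢
        refine ⟨hm.1, ?_⟩
        rcases hm.2 with h | h | h <;> omega
      have := card_le_card this
      omega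
    · have : Om q r0 3 ⊆ (range 3).filter (fun m => 3 ∣ q * (r0 + m)) ∪
          (range 3).filter (fun m => 3 ∣ q * (r0 + m) + 2) := by
        intro m hm
        unfold Om at hm
        simp only [mem_filter, mem_union] at hm ⊢
        rcases hm.2 with h | h | h
        · exact Or.inl ⟨hm.1, h⟩
        · exact Or.inr ⟨hm.1, h⟩
        · exact Or.inl ⟨hm.1, by omega⟩
      have := (card_le_card this).trans (card_union_le _ _)
      omega
  · omega

open Classical in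
/-- the sieve for a fixed `q` -/
lemma sieve_q (I : ℕ) (hI : 1 ≤ I) (q : ℕ) (hq : q.Prime) (hqz : 2 ^ 2 ^ I < q) (r0 k : ℕ) :
    (k : ℝ) * (Real.exp (-64) ^ I / 2) - (2 : ℝ) ^ (872 * 2 ^ I) ≤
      (((Ioc 0 k).filter (fun n => ∀ p : ℕ, p.Prime → p ≤ 2 ^ 2 ^ I → ¬ p ∣ q * (r0 + n) ∧
        ¬ p ∣ q * (r0 + n) + 2 ∧ ¬ p ∣ q * (r0 + n) + 6)).card : ℝ) := by
  set S := (range (2 ^ 2 ^ I + 1)).filter Nat.Prime with hS
  have hSm : ∀ p ∈ S, p.Prime ∧ p ≤ 2 ^ 2 ^ I := by
    intro p hp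
    rw [hS, mem_filter, mem_range] at hp
    exact ⟨hp.2, by omega⟩
  have hpq : ∀ p ∈ S, ¬ p ∣ q := by
    intro p hp h
    have h1 := (Nat.prime_dvd_prime_iff_eq (hSm p hp).1 hq).1 h
    have h2 := (hSm p hp).2
    omega
  have h := Pool.Agent.H505R3.sieve_lowerG (Ω := Om q r0) 2 (by norm_num) S (fun p hp => (hSm p hp).1)
    (fun p hp => (Om_card q r0 p (hSm p hp).1 (hpq p hp)).1)
    (fun p _ => filter_subset _ _)
    (fun p hp => (Om_card q r0 p (hSm p hp).1 (hpq p hp)).2) I hI (fun p hp => (hSm p hp).2) k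
  have e1 : Real.exp (-(32 * ((2 : ℕ) : ℝ))) = Real.exp (-64) := by norm_num
  rw [e1] at h
  refine h.trans ?_
  rw [Nat.cast_le]
  apply card_le_card
  intro n hn
  rw [mem_filter] at hn ⊢
  refine ⟨hn.1, fun p hp hpz => ?_⟩
  have hpS : p ∈ S := by
    rw [hS, mem_filter, mem_range]
    exact ⟨by omega, hp⟩
  have h1 := hn.2 p hpS
  unfold Om at h1
  rw [mem_filter, mem_range] at h1
  have h2 : n % p < p := Nat.mod_lt _ hp.pos
  have key : ∀ c : ℕ, p ∣ q * (r0 + n) + c → p ∣ q * (r0 + n % p) + c := by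
    intro c hc
    have hmod : q * (r0 + n % p) + c ≡ q * (r0 + n) + c [MOD p] :=
      Nat.ModEq.add_right _ (Nat.ModEq.mul_left _ (Nat.ModEq.add_left _ (Nat.mod_modEq _ _)))
    exact (hmod.dvd_iff dvd_rfl).2 hc
  refine ⟨fun h3 => h1 ⟨h2, Or.inl ?_⟩, fun h3 => h1 ⟨h2, Or.inr (Or.inl (key 2 h3))⟩,
    fun h3 => h1 ⟨h2, Or.inr (Or.inr (key 6 h3))⟩⟩
  have := key 0 (by simpa using h3)
  simpa using this

/-- primes in `(z, 8 z]` -/
lemma primes_ge : ∃ z0 : ℕ, ∀ z : ℕ, z0 ≤ z →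
    (z : ℝ) ≤ (((Ioc z (8 * z)).filter Nat.Prime).card : ℝ) * Real.log (8 * z) := by
  have hlim : ∀ᶠ z : ℕ in Filter.atTop, Real.log ((8 * z : ℕ) + 1) + 2 * √((8 * z : ℕ) : ℝ) * Real.log (8 * z : ℕ)
      ≤ 3 * (z : ℝ) := by
    have h1 := (isLittleO_log_rpow_atTop (r := 1 / 4) (by norm_num)).def (c := 1 / 16) (by norm_num)
    have h2 := tendsto_natCast_atTop_atTop (R := ℝ)
    have h3 : Filter.Tendsto (fun z : ℕ => ((8 * z : ℕ) : ℝ) + 1) Filter.atTop Filter.atTop := by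
      apply Filter.tendsto_atTop_add_const_right
      push_cast
      exact Filter.Tendsto.const_mul_atTop (by norm_num) h2
    have h4 := h3.eventually h1
    filter_upwards [h4, Filter.eventually_ge_atTop 100] with z hz hz1
    have hz1' : (100 : ℝ) ≤ z := by exact_mod_cast hz1
    set t : ℝ := ((8 * z : ℕ) : ℝ) + 1 with ht
    have ht0 : 1 ≤ t := by
      rw [ht]; push_cast; linarith
    rw [Real.norm_of_nonneg (Real.log_nonneg ht0), Real.norm_of_nonneg (by positivity)] at hz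
    have hs : √((8 * z : ℕ) : ℝ) ≤ t ^ (1 / 2 : ℝ) := by
      rw [← Real.sqrt_eq_rpow]
      apply Real.sqrt_le_sqrt
      rw [ht]; linarith
    have hl : Real.log ((8 * z : ℕ) : ℝ) ≤ Real.log t := by
      apply Real.log_le_log
      · push_cast; linarith
      · rw [ht]; linarith
    have hl0 : 0 ≤ Real.log ((8 * z : ℕ) : ℝ) := by
      apply Real.log_nonneg
      push_cast; linarith
    have h5 : √((8 * z : ℕ) : ℝ) * Real.log ((8 * z : ℕ) : ℝ) ≤ t ^ (1 / 2 : ℝ) * (1 / 16 * t ^ (1 / 4 : ℝ)) :=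
      mul_le_mul hs (hl.trans hz) hl0 (by positivity)
    have h6 : t ^ (1 / 2 : ℝ) * (1 / 16 * t ^ (1 / 4 : ℝ)) = 1 / 16 * t ^ (3 / 4 : ℝ) := by
      rw [show (3 / 4 : ℝ) = 1 / 2 + 1 / 4 by norm_num, Real.rpow_add (by linarith)]
      ring
    have h7 : t ^ (3 / 4 : ℝ) ≤ t := by
      calc t ^ (3 / 4 : ℝ) ≤ t ^ (1 : ℝ) := Real.rpow_le_rpow_of_exponent_le ht0 (by norm_num)
        _ = t := Real.rpow_one t
    have h8 : t ^ (1 / 4 : ℝ) ≤ t := by
      calc t ^ (1 / 4 : ℝ) ≤ t ^ (1 : ℝ) := Real.rpow_le_rpow_of_exponent_le ht0 (by norm_num)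
        _ = t := Real.rpow_one t
    have h9 : t = 8 * z + 1 := by rw [ht]; push_cast; ring
    have h10 : 2 * √((8 * z : ℕ) : ℝ) * Real.log (8 * z : ℕ) =
        2 * (√((8 * z : ℕ) : ℝ) * Real.log (8 * z : ℕ)) := by ring
    rw [h10]
    rw [h6] at h5
    linarith
  obtain ⟨z0, hz0⟩ := Filter.eventually_atTop.1 hlim
  refine ⟨max z0 1, fun z hz => ?_⟩
  have h1 := hz0 z (le_trans (le_max_left _ _) hz)
  have hz1 : 1 ≤ z := le_trans (le_max_right _ _) hz
  have h2 := Chebyshev.theta_ge (8 * z)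
  have h3 := Chebyshev.theta_le_log4_mul_x (x := (z : ℝ)) (Nat.cast_nonneg z)
  have hz1' : (1 : ℝ) ≤ z := by exact_mod_cast hz1
  have hlog4 : Real.log 4 = 2 * Real.log 2 := by
    rw [show (4 : ℝ) = 2 ^ 2 by norm_num, Real.log_pow]; push_cast; ring
  have hl2 := Real.log_two_gt_d9
  have hl2' := Real.log_two_lt_d9
  have hdiff : (z : ℝ) ≤ Chebyshev.theta ((8 * z : ℕ) : ℝ) - Chebyshev.theta (z : ℝ) := by
    rw [hlog4] at h3
    push_cast at h1 h2 ⊢
    nlinarith
  refine hdiff.trans ?_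
  have hsum : Chebyshev.theta ((8 * z : ℕ) : ℝ) - Chebyshev.theta (z : ℝ) =
      ∑ p ∈ (Ioc z (8 * z)).filter Nat.Prime, Real.log p := by
    unfold Chebyshev.theta
    rw [Nat.floor_natCast, Nat.floor_natCast]
    have hsplit : (Ioc 0 (8 * z)).filter Nat.Prime =
        (Ioc 0 z).filter Nat.Prime ∪ (Ioc z (8 * z)).filter Nat.Prime := by
      rw [← filter_union, Ioc_union_Ioc_eq_Ioc (by omega) (by omega)]
    rw [hsplit, sum_union]
    · ring
    · rw [disjoint_left]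
      intro p hp1 hp2
      rw [mem_filter, mem_Ioc] at hp1 hp2
      omega
  rw [hsum, ← nsmul_eq_mul]
  apply sum_le_card_nsmul
  intro p hp
  rw [mem_filter, mem_Ioc] at hp
  apply Real.log_le_log
  · exact_mod_cast hp.2.pos
  · exact_mod_cast hp.1.2

end Pool.Agent.R105.GD
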