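import Mathlib
import Pool.Agent.R105.GD.Large

/-! Large defects of the gcd recursion for prime triples: the count. -/

set_option autoImplicit false

namespace Pool.Agent.R105.GD

open Finset

open Classical in
/-- the sifted values for a fixed `q` inject into the target set -/
lemma inject (z q X y : ℕ) (hq : q.Prime) (hz : 1 ≤ z) (hqz : z < q) (hq8 : q ≤ 8 * z)
    (hX : 25 * z + 6 ≤ X) (hy : 4 ≤ y) :
    ((Ioc 0 ((y - 4) / q)).filter (fun n => ∀ p : ℕ, p.Prime → p ≤ z → ¬ p ∣ q * (X / q + n) ∧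
        ¬ p ∣ q * (X / q + n) + 2 ∧ ¬ p ∣ q * (X / q + n) + 6)).card ≤
      (((Icc X (X + y)).filter (fun N => ff N + z ≤ N)).filter (fun N => q ∣ N - 4)).card := by
  apply card_le_card_of_injOn (fun n => q * (X / q + n) + 4)
  · intro n hn
    have hn' := Finset.mem_coe.1 hn
    rw [mem_filter, mem_Ioc] at hn'
    obtain ⟨⟨hn1, hn2⟩, hn3⟩ := hn'
    rw [Finset.mem_coe, mem_filter, mem_filter, mem_Icc]
    beta_reduce
    have h1 : q * (X / q) ≤ X := Nat.mul_div_le X q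
    have h2 : X < q * (X / q + 1) := by
      have := Nat.lt_mul_div_succ X hq.pos
      exact this
    have h3 : q * (X / q + 1) ≤ q * (X / q + n) := Nat.mul_le_mul_left _ (by omega)
    have h4 : q * n ≤ y - 4 := (Nat.mul_le_mul_left q hn2).trans (Nat.mul_div_le _ _)
    have h5 : q * (X / q + n) = q * (X / q) + q * n := by ring
    refine ⟨⟨⟨by omega, by omega⟩, ?_⟩, ?_⟩
    · apply ff_jump _ z q hqz _ hz
      · omega
      · intro p hp hpz
        have h6 := hn3 p hp hpz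
        have e1 : q * (X / q + n) + 4 - 4 = q * (X / q + n) := by omega
        have e2 : q * (X / q + n) + 4 - 2 = q * (X / q + n) + 2 := by omega
        have e3 : q * (X / q + n) + 4 + 2 = q * (X / q + n) + 6 := by omega
        rw [e1, e2, e3]
        exact h6
      · have e1 : q * (X / q + n) + 4 - 4 = q * (X / q + n) := by omega
        rw [e1]
        exact Dvd.intro _ rfl
    · have e1 : q * (X / q + n) + 4 - 4 = q * (X / q + n) := by omega
      rw [e1]
      exact Dvd.intro _ rfl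
  · intro a _ b _ hab
    simp only at hab
    have h1 : q * (X / q + a) = q * (X / q + b) := by omega
    have := Nat.eq_of_mul_eq_mul_left hq.pos h1
    omega

/-- a number has few prime factors above `z` -/
lemma few (z : ℕ) (Q : Finset ℕ) (hQ : ∀ q ∈ Q, q.Prime ∧ z ≤ q) (M : ℕ) (hM : 0 < M) :
    z ^ (Q.filter (fun q => q ∣ M)).card ≤ M := by
  have h1 : ∏ q ∈ Q.filter (fun q => q ∣ M), q ∣ M := by
    apply Finset.prod_primes_dvd
    · intro q hq
      exact (hQ q (mem_filter.1 hq).1).1.prime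
    · intro q hq
      exact (mem_filter.1 hq).2
  refine le_trans ?_ (Nat.le_of_dvd hM h1)
  apply Finset.pow_card_le_prod
  intro q hq
  exact (hQ q (mem_filter.1 hq).1).2

/-- double counting -/
lemma double_count (Q T : Finset ℕ) (a m : ℝ)
    (h1 : ∀ q ∈ Q, a ≤ ((T.filter (fun N => q ∣ N - 4)).card : ℝ))
    (h2 : ∀ N ∈ T, ((Q.filter (fun q => q ∣ N - 4)).card : ℝ) ≤ m) :
    (Q.card : ℝ) * a ≤ (T.card : ℝ) * m := by
  have h3 : ∑ q ∈ Q, ((T.filter (fun N => q ∣ N - 4)).card : ℝ) =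
      ∑ N ∈ T, ((Q.filter (fun q => q ∣ N - 4)).card : ℝ) := by
    have := Finset.sum_card_bipartiteAbove_eq_sum_card_bipartiteBelow (s := Q) (t := T)
      (r := fun q N => q ∣ N - 4)
    unfold Finset.bipartiteAbove Finset.bipartiteBelow at this
    exact_mod_cast this
  calc (Q.card : ℝ) * a = ∑ q ∈ Q, a := by rw [sum_const, nsmul_eq_mul]
    _ ≤ ∑ q ∈ Q, ((T.filter (fun N => q ∣ N - 4)).card : ℝ) := sum_le_sum h1
    _ = ∑ N ∈ T, ((Q.filter (fun q => q ∣ N - 4)).card : ℝ) := h3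
    _ ≤ ∑ N ∈ T, m := sum_le_sum h2
    _ = (T.card : ℝ) * m := by rw [sum_const, nsmul_eq_mul]

lemma exp64 : (1 : ℝ) / 2 ^ 96 ≤ Real.exp (-64) := by
  rw [Real.exp_neg, one_div]
  apply inv_anti₀ (Real.exp_pos _)
  have h1 := Real.exp_one_lt_d9
  have h2 : Real.exp 64 = (Real.exp 1 ^ 2) ^ 32 := by
    rw [← pow_mul, ← Real.exp_nat_mul]
    norm_num
  rw [h2, show (2 : ℝ) ^ 96 = (2 ^ 3) ^ 32 by norm_num]
  apply pow_le_pow_left₀ (by positivity)
  have h3 := Real.exp_pos 1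
  nlinarith

open Classical in
/-- the main count, with explicit parameters -/
lemma count_ge (I X y : ℕ) (hI : 1 ≤ I) (hX : 25 * 2 ^ 2 ^ I + 6 ≤ X)
    (hy : 2 ^ (1800 * 2 ^ I) ≤ y) (hyX : y ≤ X) (m : ℝ)
    (hm : 2 * Real.log X ≤ m * (2 ^ I * Real.log 2)) :
    ((((Ioc (2 ^ 2 ^ I) (8 * 2 ^ 2 ^ I)).filter Nat.Prime).card : ℝ)) *
      (y / (64 * (2 : ℝ) ^ 2 ^ I) * (1 / (2 ^ I) ^ 96)) ≤
      (((Icc X (X + y)).filter (fun N => ff N + 2 ^ 2 ^ I ≤ N)).card : ℝ) * m := by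
  set z : ℕ := 2 ^ 2 ^ I with hz
  have hz4 : 4 ≤ z := by
    rw [hz]
    calc 4 = 2 ^ 2 ^ 1 := by norm_num
      _ ≤ 2 ^ 2 ^ I := Nat.pow_le_pow_right (by norm_num) (Nat.pow_le_pow_right (by norm_num) hI)
  have hzR : (4 : ℝ) ≤ (z : ℝ) := by exact_mod_cast hz4
  have hzcast : (z : ℝ) = (2 : ℝ) ^ 2 ^ I := by rw [hz]; push_cast; rfl
  have hyz : z ^ 1800 ≤ y := by
    rw [hz, ← pow_mul, mul_comm]; exact hy
  have hyzR : (z : ℝ) ^ 1800 ≤ (y : ℝ) := by exact_mod_cast hyz
  have hIz : (2 : ℝ) ^ I ≤ z := by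
    have : 2 ^ I ≤ z := by rw [hz]; exact Nat.lt_two_pow_self.le
    exact_mod_cast this
  rw [← hzcast]
  apply double_count
  · intro q hq
    rw [mem_filter, mem_Ioc] at hq
    obtain ⟨⟨hq1, hq2⟩, hqp⟩ := hq
    have hy4 : 4 ≤ y := by
      refine le_trans ?_ hyz
      calc 4 ≤ z := hz4
        _ = z ^ 1 := (pow_one z).symm
        _ ≤ z ^ 1800 := Nat.pow_le_pow_right (by omega) (by norm_num)
    have h1 := inject z q X y hqp (by omega) hq1 hq2 hX hy4
    have h2 := sieve_q I hI q hqp hq1 (X / q) ((y - 4) / q)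
    have h3 : (((y - 4) / q : ℕ) : ℝ) * (Real.exp (-64) ^ I / 2) - (2 : ℝ) ^ (872 * 2 ^ I) ≤
        (((((Icc X (X + y)).filter (fun N => ff N + z ≤ N)).filter (fun N => q ∣ N - 4)).card : ℕ) : ℝ) :=
      h2.trans (by exact_mod_cast h1)
    refine le_trans ?_ h3
    -- lower bound for k
    have hqR : (0 : ℝ) < q := by exact_mod_cast hqp.pos
    have hq2R : (q : ℝ) ≤ 8 * z := by exact_mod_cast hq2
    have hk : (y : ℝ) / (16 * z) ≤ (((y - 4) / q : ℕ) : ℝ) := by
      have h4 : ((y - 4 : ℕ) : ℝ) / q - 1 ≤ (((y - 4) / q : ℕ) : ℝ) := by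
        have h5 := Nat.lt_mul_div_succ (y - 4) hqp.pos
        have h6 : ((y - 4 : ℕ) : ℝ) < q * ((((y - 4) / q : ℕ) : ℝ) + 1) := by exact_mod_cast h5
        rw [sub_le_iff_le_add, div_le_iff₀ hqR]
        linarith
      refine le_trans ?_ h4
      have h7 : ((y - 4 : ℕ) : ℝ) = (y : ℝ) - 4 := by
        rw [Nat.cast_sub hy4]; norm_num
      rw [h7]
      have h8 : ((y : ℝ) - 4) / (8 * z) ≤ ((y : ℝ) - 4) / q := by
        apply div_le_div_of_nonneg_left _ hqR hq2R
        have : (4 : ℝ) ≤ y := by exact_mod_cast hy4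
        linarith
      have h9 : (y : ℝ) / (16 * z) ≤ ((y : ℝ) - 4) / (8 * z) - 1 := by
        have hbig : 8 + 16 * (z : ℝ) ≤ y := by
          refine le_trans ?_ hyzR
          calc 8 + 16 * (z : ℝ) ≤ (z : ℝ) ^ 4 := by nlinarith [pow_le_pow_left₀ (by norm_num) hzR 3]
            _ ≤ (z : ℝ) ^ 1800 := pow_le_pow_right₀ (by linarith) (by norm_num)
        have e : ((y : ℝ) - 4) / (8 * z) - 1 - (y : ℝ) / (16 * z) = ((y : ℝ) - (8 + 16 * z)) / (16 * z) := by
          field_simp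
          ring
        have : 0 ≤ ((y : ℝ) - (8 + 16 * z)) / (16 * z) := div_nonneg (by linarith) (by linarith)
        linarith
      linarith
    -- lower bound for the exponential
    have hE : 1 / ((2 : ℝ) ^ I) ^ 96 ≤ Real.exp (-64) ^ I := by
      have h4 := pow_le_pow_left₀ (by positivity) exp64 I
      refine le_trans (le_of_eq ?_) h4
      rw [one_div_pow, ← pow_mul, ← pow_mul, mul_comm]
    have hE0 : 0 < 1 / ((2 : ℝ) ^ I) ^ 96 := by positivity
    have hEz : 1 / (z : ℝ) ^ 96 ≤ 1 / ((2 : ℝ) ^ I) ^ 96 := by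
      apply one_div_le_one_div_of_le (by positivity)
      exact pow_le_pow_left₀ (by positivity) hIz 96
    have hmain : (y : ℝ) / (16 * z) * (1 / ((2 : ℝ) ^ I) ^ 96 / 2) ≤
        (((y - 4) / q : ℕ) : ℝ) * (Real.exp (-64) ^ I / 2) := by
      apply mul_le_mul hk _ (by positivity) (Nat.cast_nonneg _)
      linarith
    have herr : (2 : ℝ) ^ (872 * 2 ^ I) ≤ (y : ℝ) / (64 * z) * (1 / ((2 : ℝ) ^ I) ^ 96) := by
      have h4 : (2 : ℝ) ^ (872 * 2 ^ I) = (z : ℝ) ^ 872 := by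
        rw [hzcast, ← pow_mul, mul_comm]
      rw [h4]
      have h5 : (z : ℝ) ^ 872 ≤ (z : ℝ) ^ 1800 / (64 * z) * (1 / (z : ℝ) ^ 96) := by
        have hz0 : (0 : ℝ) < z := by linarith
        rw [div_mul_div_comm, mul_one, le_div_iff₀ (by positivity)]
        have h6 : (64 : ℝ) ≤ (z : ℝ) ^ 3 := by
          calc (64 : ℝ) = 4 ^ 3 := by norm_num
            _ ≤ (z : ℝ) ^ 3 := pow_le_pow_left₀ (by norm_num) hzR 3
        calc (z : ℝ) ^ 872 * (64 * z * z ^ 96) = 64 * (z : ℝ) ^ 969 := by ring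
          _ ≤ (z : ℝ) ^ 3 * (z : ℝ) ^ 969 := mul_le_mul_of_nonneg_right h6 (by positivity)
          _ = (z : ℝ) ^ 972 := by ring
          _ ≤ (z : ℝ) ^ 1800 := pow_le_pow_right₀ (by linarith) (by norm_num)
      refine h5.trans ?_
      apply mul_le_mul _ hEz (by positivity) (by positivity)
      exact div_le_div_of_nonneg_right hyzR (by linarith)
    have e2 : (y : ℝ) / (16 * z) * (1 / ((2 : ℝ) ^ I) ^ 96 / 2) =
        2 * ((y : ℝ) / (64 * z) * (1 / ((2 : ℝ) ^ I) ^ 96)) := by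
      have hz0 : (z : ℝ) ≠ 0 := by linarith
      field_simp
      norm_num
    linarith
  · intro N hN
    rw [mem_filter, mem_Icc] at hN
    have hN4 : 0 < N - 4 := by omega
    have h1 := few z ((Ioc z (8 * z)).filter Nat.Prime) (fun q hq => by
      rw [mem_filter, mem_Ioc] at hq
      exact ⟨hq.2, by omega⟩) (N - 4) hN4
    set c := ((((Ioc z (8 * z)).filter Nat.Prime)).filter (fun q => q ∣ N - 4)).card with hc
    have h2 : (z : ℝ) ^ c ≤ (X : ℝ) ^ 2 := by
      have h3 : z ^ c ≤ X ^ 2 := by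
        refine h1.trans ?_
        have : X * 2 ≤ X * X := Nat.mul_le_mul_left _ (by omega)
        rw [sq]
        omega
      exact_mod_cast h3
    have hX0 : (0 : ℝ) < X := by exact_mod_cast (by omega : 0 < X)
    have h4 := Real.log_le_log (by positivity) h2
    rw [Real.log_pow, Real.log_pow, hzcast, Real.log_pow] at h4
    push_cast at h4
    have h5 : (0 : ℝ) < 2 ^ I * Real.log 2 := by
      have := Real.log_pos (by norm_num : (1 : ℝ) < 2)
      positivity
    have h6 : (c : ℝ) * (2 ^ I * Real.log 2) ≤ m * (2 ^ I * Real.log 2) := h4.trans hm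
    exact le_of_mul_le_mul_right h6 h5

end Pool.Agent.R105.GD
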