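import Mathlib
import Pool.Agent.Y949.DK.SV
import Pool.Agent.Y185.DK.Avg

/-! Typical defect of the gcd recursion for Goldbach pairs: the number of prime pairs, on average
over the shift. -/

set_option autoImplicit false

namespace Pool.Agent.R105.GD

open Finset Filter Topology Pool.Agent.Y851.DK

lemma sg_nonneg (m : ℕ) : 0 ≤ sg m := sum_nonneg fun _ _ => by positivity

lemma sg_double (x : ℕ) (hx : 1 ≤ x) : sg (2 * x) ≤ 1 / 2 + sg x := by
  unfold sg
  rw [Nat.primeFactors_mul (by norm_num) (by omega), Nat.Prime.primeFactors Nat.prime_two]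
  refine (sum_le_sum_of_subset_of_nonneg (t := {2} ∪ x.primeFactors) (Finset.Subset.refl _)
    (fun _ _ _ => by positivity)).trans ?_
  have h1 := sum_union_inter (s₁ := ({2} : Finset ℕ)) (s₂ := x.primeFactors)
    (f := fun p : ℕ => (1 : ℝ) / p)
  have h2 : 0 ≤ ∑ p ∈ {2} ∩ x.primeFactors, (1 : ℝ) / (p : ℝ) :=
    sum_nonneg fun _ _ => by positivity
  rw [sum_singleton] at h1
  push_cast at h1
  linarith

/-- average of `exp (c sg x)` -/
lemma exp_avg (c : ℝ) (hc : 0 < c) : ∃ C : ℝ, 1 ≤ C ∧ ∀ M : ℕ,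
    ∑ x ∈ Icc 1 M, Real.exp (c * sg x) ≤ C * M := by
  obtain ⟨C, hC, h⟩ := Pool.Agent.Y185.DK.AV.t_AVG c 1 hc one_pos
  obtain ⟨M0, hM0⟩ := eventually_atTop.1 ((tendsto_natCast_atTop_atTop (R := ℝ)).eventually h)
  set S := ∑ x ∈ Icc 1 M0, Real.exp (c * sg x) with hS
  have hS0 : 0 ≤ S := sum_nonneg fun _ _ => (Real.exp_pos _).le
  refine ⟨C + S, by linarith, fun M => ?_⟩
  rcases Nat.eq_zero_or_pos M with h0 | h0
  · subst h0; simp
  have hM1 : (1 : ℝ) ≤ M := by exact_mod_cast h0
  by_cases hM : M0 ≤ M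
  · have h1 := hM0 M hM M (by rw [Real.rpow_one]) le_rfl 1 0 le_rfl
      (by push_cast; nlinarith) (by push_cast; positivity)
    have h2 : ∑ x ∈ Icc 1 M, Real.exp (c * sg x) =
        ∑ x ∈ Icc 1 M, Real.exp (c * sgn 1 ((((1 : ℕ) : ℤ) * (x : ℤ) - ((0 : ℕ) : ℤ)).natAbs)) := by
      apply sum_congr rfl
      intro x _
      have e1 : ((((1 : ℕ) : ℤ) * (x : ℤ) - ((0 : ℕ) : ℤ)).natAbs) = x := by
        push_cast
        simp
      rw [e1]
      have e2 : sgn 1 x = sg x := by
        unfold sgn sg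
        apply sum_congr _ fun _ _ => rfl
        apply filter_true_of_mem
        intro p hp h
        exact (Nat.prime_of_mem_primeFactors hp).one_lt.ne' (Nat.dvd_one.1 h)
      rw [e2]
    rw [h2]
    refine h1.trans ?_
    nlinarith
  · push Not at hM
    have h1 : ∑ x ∈ Icc 1 M, Real.exp (c * sg x) ≤ S :=
      sum_le_sum_of_subset_of_nonneg (Icc_subset_Icc le_rfl hM.le)
        fun _ _ _ => (Real.exp_pos _).le
    nlinarith

open Classical in
/-- one pair -/
lemma pair_le : ∃ C : ℝ, 1 ≤ C ∧ ∀ᶠ X : ℕ in atTop, ∀ h : ℕ, 2 ≤ h →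
    (((Icc 1 X).filter (fun n : ℕ => Nat.Prime (n + 1) ∧ Nat.Prime (n + 2 * h - 1))).card : ℝ)
      ≤ C * Real.exp (C * sg (h - 1)) * (X / Real.log X ^ 2) := by
  obtain ⟨C, hC, hh⟩ := Pool.Agent.Y949.DK.t_SV 2
  refine ⟨2 * C * Real.exp C, ?_, ?_⟩
  · have h1 := Real.one_le_exp (by linarith : 0 ≤ C)
    nlinarith
  · have h2 := (tendsto_natCast_atTop_atTop (R := ℝ)).eventually hh
    filter_upwards [h2, eventually_ge_atTop 2] with X hX hX2 h hh2
    set F : Finset (ℤ × ℤ) := {(1, 1), (1, 2 * (h : ℤ) - 1)} with hF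
    have hne : ((1 : ℤ), (1 : ℤ)) ≠ (1, 2 * (h : ℤ) - 1) := by
      intro h0
      have := congrArg Prod.snd h0
      simp only at this
      omega
    have hX2' : (2 : ℝ) ≤ X := by exact_mod_cast hX2
    have h3 := hX F (by rw [hF, card_pair hne]) (by
        intro f hf
        rw [hF, mem_insert, mem_singleton] at hf
        rcases hf with rfl | rfl <;> simp) (by
        intro f hf g hg hfg
        rw [hF, mem_insert, mem_singleton] at hf hg
        rcases hf with rfl | rfl <;> rcases hg with rfl | rfl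
        · exact absurd rfl hfg
        · simp only; omega
        · simp only; omega
        · exact absurd rfl hfg)
    rw [Nat.floor_natCast] at h3
    have hlog : 0 < Real.log X := Real.log_pos (by linarith)
    have hY : 0 < (X : ℝ) / Real.log X ^ 2 := by positivity
    have hs1 : sg 1 = 0 := by unfold sg; simp
    have hs0 : sg 0 = 0 := by unfold sg; simp
    have hsum : ∑ f ∈ F, sg f.1.natAbs + ∑ f ∈ F, ∑ g ∈ F,
        sg (f.1 * g.2 - g.1 * f.2).natAbs ≤ 1 + 2 * sg (h - 1) := by
      rw [hF, sum_pair hne, sum_pair hne, sum_pair hne, sum_pair hne]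
      simp only [Int.natAbs_one, one_mul, sub_self, Int.natAbs_zero, hs1, hs0]
      have e1 : (2 * (h : ℤ) - 1 - 1).natAbs = 2 * (h - 1) := by omega
      have e2 : (1 - (2 * (h : ℤ) - 1)).natAbs = 2 * (h - 1) := by omega
      rw [e1, e2]
      have := sg_double (h - 1) (by omega)
      linarith
    have hcard : (((Icc 1 X).filter (fun n : ℕ => Nat.Prime (n + 1) ∧
        Nat.Prime (n + 2 * h - 1))).card : ℝ) ≤ (((Icc 1 X).filter (fun n : ℕ => ∀ f ∈ F,
          (f.1 * (n : ℤ) + f.2).toNat.Prime)).card : ℝ) := by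
      rw [Nat.cast_le]
      apply card_le_card
      intro n hn
      rw [mem_filter] at hn ⊢
      refine ⟨hn.1, fun f hf => ?_⟩
      rw [hF, mem_insert, mem_singleton] at hf
      rcases hf with rfl | rfl
      · have : ((1 : ℤ) * (n : ℤ) + 1).toNat = n + 1 := by omega
        simp only [this]
        exact hn.2.1
      · have : ((1 : ℤ) * (n : ℤ) + (2 * (h : ℤ) - 1)).toNat = n + 2 * h - 1 := by omega
        simp only [this]
        exact hn.2.2
    refine hcard.trans (h3.trans ?_)
    apply mul_le_mul_of_nonneg_right _ hY.le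
    have hsg := sg_nonneg (h - 1)
    calc C * Real.exp (C * (∑ f ∈ F, sg f.1.natAbs + ∑ f ∈ F, ∑ g ∈ F,
          sg (f.1 * g.2 - g.1 * f.2).natAbs))
        ≤ C * Real.exp (C * (1 + 2 * sg (h - 1))) := by
          apply mul_le_mul_of_nonneg_left _ (by linarith)
          apply Real.exp_le_exp.2
          exact mul_le_mul_of_nonneg_left hsum (by linarith)
      _ = C * (Real.exp C * Real.exp (2 * C * sg (h - 1))) := by
          rw [← Real.exp_add]
          congr 2
          ring
      _ ≤ (2 * C * Real.exp C) * Real.exp (2 * C * Real.exp C * sg (h - 1)) := by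
          have h5 : Real.exp (2 * C * sg (h - 1)) ≤ Real.exp (2 * C * Real.exp C * sg (h - 1)) := by
            apply Real.exp_le_exp.2
            apply mul_le_mul_of_nonneg_right _ hsg
            have := Real.one_le_exp (by linarith : 0 ≤ C)
            nlinarith
          have h6 : 0 < Real.exp C := Real.exp_pos _
          have h7 : 0 < Real.exp (2 * C * sg (h - 1)) := Real.exp_pos _
          calc C * (Real.exp C * Real.exp (2 * C * sg (h - 1)))
              = (C * Real.exp C) * Real.exp (2 * C * sg (h - 1)) := by ring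
            _ ≤ (2 * C * Real.exp C) * Real.exp (2 * C * Real.exp C * sg (h - 1)) := by
                apply mul_le_mul _ h5 h7.le (by positivity)
                have : 0 < C * Real.exp C := by positivity
                linarith

open Classical in
/-- the pairs, on average over the shift -/
lemma pairs_le : ∃ C : ℝ, 1 ≤ C ∧ ∀ᶠ X : ℕ in atTop, ∀ H : ℕ,
    ∑ h ∈ Icc 2 H,
      (((Icc 1 X).filter (fun n : ℕ => Nat.Prime (n + 1) ∧ Nat.Prime (n + 2 * h - 1))).card : ℝ)
      ≤ C * H * (X / Real.log X ^ 2) := by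
  obtain ⟨C, hC, hp⟩ := pair_le
  obtain ⟨C2, hC2, hav⟩ := exp_avg C (by linarith)
  refine ⟨C * C2, by nlinarith, ?_⟩
  filter_upwards [hp, eventually_ge_atTop 2] with X hX hX2 H
  have hX2' : (2 : ℝ) ≤ X := by exact_mod_cast hX2
  have hlog : 0 < Real.log X := Real.log_pos (by linarith)
  have hY : 0 < (X : ℝ) / Real.log X ^ 2 := by positivity
  have h1 : ∑ h ∈ Icc 2 H,
      (((Icc 1 X).filter (fun n : ℕ => Nat.Prime (n + 1) ∧ Nat.Prime (n + 2 * h - 1))).card : ℝ)
      ≤ ∑ h ∈ Icc 2 H, C * Real.exp (C * sg (h - 1)) * (X / Real.log X ^ 2) := by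
    apply sum_le_sum
    intro h hh
    rw [mem_Icc] at hh
    exact hX h hh.1
  refine h1.trans ?_
  rw [← sum_mul, ← mul_sum]
  have h2 : ∑ h ∈ Icc 2 H, Real.exp (C * sg (h - 1)) ≤ C2 * H := by
    have h3 : ∑ h ∈ Icc 2 H, Real.exp (C * sg (h - 1)) = ∑ x ∈ Icc 1 (H - 1), Real.exp (C * sg x) := by
      apply sum_bij (fun h _ => h - 1)
      · intro h hh
        rw [mem_Icc] at hh ⊢
        omega
      · intro a ha b hb hab
        rw [mem_Icc] at ha hb
        omega
      · intro x hx
        rw [mem_Icc] at hx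
        exact ⟨x + 1, by rw [mem_Icc]; omega, by omega⟩
      · intro h _
        rfl
    rw [h3]
    refine (hav (H - 1)).trans ?_
    apply mul_le_mul_of_nonneg_left _ (by linarith)
    exact_mod_cast Nat.sub_le _ _
  apply mul_le_mul_of_nonneg_right _ hY.le
  calc C * ∑ h ∈ Icc 2 H, Real.exp (C * sg (h - 1)) ≤ C * (C2 * H) :=
        mul_le_mul_of_nonneg_left h2 (by linarith)
    _ = C * C2 * H := by ring

open Classical in
/-- the primes -/
lemma primes_le : ∃ C : ℝ, 1 ≤ C ∧ ∀ᶠ X : ℕ in atTop,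
    (((Icc 1 X).filter (fun n : ℕ => Nat.Prime n)).card : ℝ) ≤ C * (X / Real.log X) := by
  obtain ⟨C, hC, hh⟩ := Pool.Agent.Y949.DK.t_SV 1
  refine ⟨C, hC, ?_⟩
  have h2 := (tendsto_natCast_atTop_atTop (R := ℝ)).eventually hh
  filter_upwards [h2, eventually_ge_atTop 2] with X hX hX2
  set F : Finset (ℤ × ℤ) := {(1, 0)} with hF
  have h3 := hX F (by rw [hF, card_singleton]) (by
      intro f hf
      rw [hF, mem_singleton] at hf
      subst hf; simp) (by
      intro f hf g hg hfg
      rw [hF, mem_singleton] at hf hg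
      exact absurd (hf.trans hg.symm) hfg)
  rw [Nat.floor_natCast] at h3
  have hs1 : sg 1 = 0 := by unfold sg; simp
  have hs0 : sg 0 = 0 := by unfold sg; simp
  have hsum : ∑ f ∈ F, sg f.1.natAbs + ∑ f ∈ F, ∑ g ∈ F,
      sg (f.1 * g.2 - g.1 * f.2).natAbs = 0 := by
    rw [hF, sum_singleton, sum_singleton, sum_singleton]
    simp [hs1, hs0]
  rw [hsum, mul_zero, Real.exp_zero, mul_one, pow_one] at h3
  refine le_trans ?_ h3
  rw [Nat.cast_le]
  apply card_le_card
  intro n hn
  rw [mem_filter] at hn ⊢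
  refine ⟨hn.1, fun f hf => ?_⟩
  rw [hF, mem_singleton] at hf
  subst hf
  have : ((1 : ℤ) * (n : ℤ) + 0).toNat = n := by omega
  simp only [this]
  exact hn.2

end Pool.Agent.R105.GD
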